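import Pool.Agent.Helper89.EX.Defs
import Pool.Agent.Helper89.EX.IC

/-!
# MP_5176ab_co, module AS: bipartite graphs with a small side (Alon-Shikhelman)
-/

set_option autoImplicit false

namespace EX

open Finset SimpleGraph Filter Topology

open scoped Classical

noncomputable section

/-- common neighbourhood -/
def AS_N {V : Type} [Fintype V] (K : SimpleGraph V) (S : Finset V) : Finset V :=
  univ.filter fun v => ∀ u ∈ S, K.Adj u v

theorem AS_mem_N {V : Type} [Fintype V] {K : SimpleGraph V} {S : Finset V} {v : V} :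
    v ∈ AS_N K S ↔ ∀ u ∈ S, K.Adj u v := by simp [AS_N]

theorem AS_not_mem {V : Type} [Fintype V] {K : SimpleGraph V} {S : Finset V} {v : V}
    (hv : v ∈ AS_N K S) : v ∉ S := fun h => (AS_mem_N.1 hv v h).ne rfl

/-- number of ordered extensions by `j` vertices -/
def AS_E {V : Type} [Fintype V] (K : SimpleGraph V) : ℕ → Finset V → ℕ
  | 0, _ => 1
  | j + 1, S => ∑ v ∈ AS_N K S, AS_E K j (insert v S)

theorem AS_count {V : Type} [Fintype V] (K : SimpleGraph V) (j : ℕ) : ∀ S : Finset V,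
    (univ.filter (fun T : Finset V => S ⊆ T ∧ T.card = S.card + j ∧
      K.IsClique (T : Set V))).card ≤ AS_E K j S := by
  induction j with
  | zero =>
    intro S
    show _ ≤ 1
    rw [Finset.card_le_one]
    intro T hT T' hT'
    simp only [mem_filter, mem_univ, true_and, add_zero] at hT hT'
    rw [← Finset.eq_of_subset_of_card_le hT.1 hT.2.1.le,
      ← Finset.eq_of_subset_of_card_le hT'.1 hT'.2.1.le]
  | succ j ih =>
    intro S
    have hsub : (univ.filter (fun T : Finset V => S ⊆ T ∧ T.card = S.card + (j + 1) ∧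
        K.IsClique (T : Set V))) ⊆ (AS_N K S).biUnion (fun v =>
          univ.filter (fun T : Finset V => insert v S ⊆ T ∧ T.card = (insert v S).card + j ∧
            K.IsClique (T : Set V))) := by
      intro T hT
      simp only [mem_filter, mem_univ, true_and] at hT
      obtain ⟨h1, h2, h3⟩ := hT
      obtain ⟨v, hvT, hvS⟩ : ∃ v ∈ T, v ∉ S := by
        by_contra hcon
        push Not at hcon
        have := Finset.card_le_card (show T ⊆ S from hcon)
        omega
      rw [mem_biUnion]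
      refine ⟨v, ?_, ?_⟩
      · rw [AS_mem_N]
        intro u hu
        exact h3 (mem_coe.2 (h1 hu)) (mem_coe.2 hvT) (fun h => hvS (h ▸ hu))
      · simp only [mem_filter, mem_univ, true_and]
        refine ⟨?_, ?_, h3⟩
        · intro x hx
          rcases mem_insert.1 hx with rfl | hx
          · exact hvT
          · exact h1 hx
        · rw [card_insert_of_notMem hvS, h2]; ring
    refine (Finset.card_le_card hsub).trans (Finset.card_biUnion_le.trans ?_)
    exact Finset.sum_le_sum (fun v _ => ih (insert v S))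

theorem AS_clique {V : Type} [Fintype V] (K : SimpleGraph V) (r : ℕ) :
    (K.cliqueFinset r).card ≤ AS_E K r ∅ := by
  refine le_trans (Finset.card_le_card ?_) (AS_count K r ∅)
  intro T hT
  rw [mem_cliqueFinset_iff] at hT
  simp only [mem_filter, mem_univ, true_and, empty_subset, card_empty, zero_add]
  exact ⟨hT.card_eq, hT.isClique⟩

/-- double counting -/
theorem AS_double {V : Type} [Fintype V] (K : SimpleGraph V) (s t q : ℕ) (S : Finset V)
    (hP : ∀ S' : Finset V, S'.card = s → (AS_N K S').card ≤ t) (hq : S.card + q = s) :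
    ∑ v ∈ AS_N K S, (AS_N K (insert v S)).card.choose q ≤
      t * (AS_N K S).card.choose q := by
  have h1 : ∑ v ∈ AS_N K S, (AS_N K (insert v S)).card.choose q =
      ∑ v ∈ AS_N K S, ∑ Q ∈ (AS_N K S).powersetCard q,
        if Q ⊆ AS_N K (insert v S) then 1 else 0 := by
    refine Finset.sum_congr rfl (fun v _ => ?_)
    rw [← Finset.card_powersetCard, Finset.sum_ite, Finset.sum_const_zero, add_zero,
      Finset.sum_const, smul_eq_mul, mul_one]
    congr 1
    ext Q
    rw [mem_powersetCard, mem_filter, mem_powersetCard]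
    constructor
    · rintro ⟨h1, h2⟩
      refine ⟨⟨h1.trans ?_, h2⟩, h1⟩
      intro x hx
      rw [AS_mem_N] at hx ⊢
      exact fun u hu => hx u (mem_insert_of_mem hu)
    · rintro ⟨⟨_, h2⟩, h1⟩
      exact ⟨h1, h2⟩
  rw [h1, Finset.sum_comm]
  have h2 : ∀ Q ∈ (AS_N K S).powersetCard q,
      ∑ v ∈ AS_N K S, (if Q ⊆ AS_N K (insert v S) then 1 else 0) ≤ t := by
    intro Q hQ
    rw [mem_powersetCard] at hQ
    rw [Finset.sum_ite, Finset.sum_const_zero, add_zero, Finset.sum_const, smul_eq_mul, mul_one]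
    have hdis : Disjoint S Q := by
      rw [Finset.disjoint_right]
      intro x hx
      exact AS_not_mem (hQ.1 hx)
    refine le_trans (Finset.card_le_card ?_) (hP (S ∪ Q) ?_)
    · intro v hv
      rw [mem_filter] at hv
      rw [AS_mem_N]
      intro u hu
      rcases mem_union.1 hu with hu | hu
      · exact AS_mem_N.1 hv.1 u hu
      · have := AS_mem_N.1 (hv.2 hu) v (mem_insert_self _ _)
        exact this.symm
    · rw [Finset.card_union_of_disjoint hdis, hQ.2, hq]
  refine (Finset.sum_le_sum h2).trans ?_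
  rw [Finset.sum_const, Finset.card_powersetCard, smul_eq_mul, mul_comm]

theorem AS_pow (q : ℕ) (hq : 1 ≤ q) : ∃ c : ℝ, 1 ≤ c ∧ ∀ x : ℕ,
    (x : ℝ) ^ q ≤ c * (1 + (x.choose q : ℝ)) := by
  refine ⟨(2 * q : ℝ) ^ q + 2 ^ q * (q.factorial : ℝ), ?_, ?_⟩
  · have h1 : (1 : ℝ) ≤ 2 * q := by
      have : (1 : ℝ) ≤ q := by exact_mod_cast hq
      linarith
    have h2 : (1 : ℝ) ≤ (2 * q : ℝ) ^ q := one_le_pow₀ h1
    have h3 : (0 : ℝ) ≤ 2 ^ q * (q.factorial : ℝ) := by positivity
    linarith
  · intro x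
    have hch : (0 : ℝ) ≤ (x.choose q : ℝ) := by positivity
    rcases lt_or_ge x (2 * q) with hx | hx
    · have h1 : (x : ℝ) ^ q ≤ (2 * q : ℝ) ^ q := by
        refine pow_le_pow_left₀ (by positivity) ?_ _
        exact_mod_cast hx.le
      have h3 : (0 : ℝ) ≤ 2 ^ q * (q.factorial : ℝ) := by positivity
      have h4 : (0 : ℝ) ≤ (2 * q : ℝ) ^ q := by positivity
      nlinarith [mul_nonneg h4 hch, mul_nonneg h3 hch]
    · have h1 : x ≤ 2 * (x + 1 - q) := by omega
      have h2 : x ^ q ≤ 2 ^ q * (q.factorial * x.choose q) := by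
        calc x ^ q ≤ (2 * (x + 1 - q)) ^ q := Nat.pow_le_pow_left h1 q
          _ = 2 ^ q * (x + 1 - q) ^ q := by rw [mul_pow]
          _ ≤ 2 ^ q * (x.descFactorial q) :=
              Nat.mul_le_mul_left _ (Nat.pow_sub_le_descFactorial x q)
          _ = 2 ^ q * (q.factorial * x.choose q) := by rw [Nat.descFactorial_eq_factorial_mul_choose]
      have h3 : (x : ℝ) ^ q ≤ 2 ^ q * ((q.factorial : ℝ) * (x.choose q : ℝ)) := by
        exact_mod_cast h2
      have h4 : (0 : ℝ) ≤ (2 * q : ℝ) ^ q := by positivity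
      have h5 : (0 : ℝ) ≤ 2 ^ q * (q.factorial : ℝ) := by positivity
      nlinarith [mul_nonneg h4 hch]

/-- power mean -/
theorem AS_mean {ι : Type} (N : Finset ι) (x : ι → ℝ) (hx : ∀ v ∈ N, 0 ≤ x v) (q : ℕ)
    (hq : 1 ≤ q) (A : ℝ) (hA : 0 < A) (hAq : A ≤ q) (c : ℝ) (hc : 1 ≤ c)
    (h : ∑ v ∈ N, x v ^ q ≤ c * (N.card : ℝ) ^ q) :
    ∑ v ∈ N, x v ^ A ≤ c * (N.card : ℝ) ^ (1 + A * (1 - 1 / q)) := by
  rcases N.eq_empty_or_nonempty with rfl | hne
  · have hq1 : (1 : ℝ) ≤ q := by exact_mod_cast hq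
    have h1 : 0 < 1 + A * (1 - 1 / (q : ℝ)) := by
      have : 1 / (q : ℝ) ≤ 1 := by
        rw [div_le_one (by linarith)]; exact hq1
      have : 0 ≤ A * (1 - 1 / (q : ℝ)) := mul_nonneg hA.le (by linarith)
      linarith
    rw [Finset.sum_empty]
    positivity
  · have hD : (0 : ℝ) < N.card := by exact_mod_cast hne.card_pos
    have hq0 : (0 : ℝ) < q := by exact_mod_cast hq
    set D : ℝ := (N.card : ℝ) with hDdef
    have hp : 1 ≤ (q : ℝ) / A := by rw [le_div_iff₀ hA]; linarith
    have h1 := Real.rpow_arith_mean_le_arith_mean_rpow N (fun _ => 1 / D) (fun v => x v ^ A)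
      (fun v _ => by positivity) (by
        rw [Finset.sum_const, nsmul_eq_mul, ← hDdef]
        field_simp) (fun v hv => Real.rpow_nonneg (hx v hv) A) hp
    have h2 : ∑ v ∈ N, 1 / D * (x v ^ A) ^ ((q : ℝ) / A) = 1 / D * ∑ v ∈ N, x v ^ q := by
      rw [Finset.mul_sum]
      refine Finset.sum_congr rfl (fun v hv => ?_)
      rw [← Real.rpow_mul (hx v hv), mul_div_cancel₀ _ hA.ne', Real.rpow_natCast]
    rw [h2, ← Finset.mul_sum] at h1
    have h3 : 1 / D * ∑ v ∈ N, x v ^ q ≤ c * D ^ ((q : ℝ) - 1) := by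
      calc 1 / D * ∑ v ∈ N, x v ^ q ≤ 1 / D * (c * D ^ q) :=
            mul_le_mul_of_nonneg_left h (by positivity)
        _ = c * D ^ ((q : ℝ) - 1) := by
            rw [Real.rpow_sub hD, Real.rpow_one, Real.rpow_natCast]
            field_simp
    have h4 := h1.trans h3
    have hS : 0 ≤ 1 / D * ∑ v ∈ N, x v ^ A :=
      mul_nonneg (by positivity) (Finset.sum_nonneg (fun v hv => Real.rpow_nonneg (hx v hv) A))
    have h5 : 1 / D * ∑ v ∈ N, x v ^ A ≤ (c * D ^ ((q : ℝ) - 1)) ^ (A / q) := by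
      have h6 := Real.rpow_le_rpow (Real.rpow_nonneg hS _) h4 (show 0 ≤ A / q by positivity)
      rw [← Real.rpow_mul hS] at h6
      have h7 : (q : ℝ) / A * (A / q) = 1 := by field_simp
      rwa [h7, Real.rpow_one] at h6
    have h8 : (c * D ^ ((q : ℝ) - 1)) ^ (A / q) ≤ c * D ^ (A * (1 - 1 / q)) := by
      rw [Real.mul_rpow (by linarith) (by positivity), ← Real.rpow_mul hD.le]
      have h9 : c ^ (A / q) ≤ c := by
        have h10 : A / q ≤ 1 := by rw [div_le_one hq0]; exact hAq
        calc c ^ (A / q) ≤ c ^ (1 : ℝ) := Real.rpow_le_rpow_of_exponent_le hc h10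
          _ = c := Real.rpow_one c
      have h11 : ((q : ℝ) - 1) * (A / q) = A * (1 - 1 / q) := by field_simp
      rw [h11]
      exact mul_le_mul_of_nonneg_right h9 (by positivity)
    have h12 : ∑ v ∈ N, x v ^ A = D * (1 / D * ∑ v ∈ N, x v ^ A) := by
      field_simp
    rw [h12]
    calc D * (1 / D * ∑ v ∈ N, x v ^ A) ≤ D * (c * D ^ (A * (1 - 1 / (q : ℝ)))) :=
          mul_le_mul_of_nonneg_left (h5.trans h8) hD.le
      _ = c * D ^ (1 + A * (1 - 1 / (q : ℝ))) := by
          rw [Real.rpow_add hD, Real.rpow_one]; ring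

/-- the exponents -/
def AS_A (r s j : ℕ) : ℝ := j - j * (j - 1) / (2 * ((s : ℝ) - r + j))

theorem AS_A_succ (r s j : ℕ) (hj : 1 ≤ j) (hrs : r ≤ s + 1) :
    AS_A r s (j + 1) = 1 + AS_A r s j * (1 - 1 / ((s : ℝ) - r + j + 1)) := by
  have hrs' : (r : ℝ) ≤ s + 1 := by exact_mod_cast hrs
  have hj' : (1 : ℝ) ≤ j := by exact_mod_cast hj
  have hkey : AS_A r s j * ((s : ℝ) - r + j) = j * ((s : ℝ) - r + j) - j * (j - 1) / 2 := by
    unfold AS_A
    by_cases h0 : (s : ℝ) - r + j = 0
    · have hj1 : (j : ℝ) = 1 := by linarith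
      rw [h0, hj1]
      norm_num
    · field_simp
  have hp : (0 : ℝ) < (s : ℝ) - r + j + 1 := by linarith
  have h1 : AS_A r s (j + 1) = ((j : ℝ) + 1) - (j + 1) * j / (2 * ((s : ℝ) - r + j + 1)) := by
    unfold AS_A
    push_cast
    congr 1
    ring_nf
  have h2 : AS_A r s j * (1 - 1 / ((s : ℝ) - r + j + 1)) =
      (AS_A r s j * ((s : ℝ) - r + j)) / ((s : ℝ) - r + j + 1) := by
    field_simp
    ring
  rw [h1, h2, hkey]
  field_simp
  ring

theorem AS_A_one (r s : ℕ) : AS_A r s 1 = 1 := by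
  unfold AS_A
  norm_num

theorem AS_A_ge (r s j : ℕ) (hj : 1 ≤ j) (hrs : r ≤ s + 1) : 1 ≤ AS_A r s j := by
  induction j, hj using Nat.le_induction with
  | base => rw [AS_A_one]
  | succ j hj ih =>
    rw [AS_A_succ r s j hj hrs]
    have hrs' : (r : ℝ) ≤ s + 1 := by exact_mod_cast hrs
    have hj' : (1 : ℝ) ≤ j := by exact_mod_cast hj
    have hp : (1 : ℝ) ≤ (s : ℝ) - r + j + 1 := by linarith
    have h1 : 1 / ((s : ℝ) - r + j + 1) ≤ 1 := by
      rw [div_le_one (by linarith)]; exact hp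
    have : 0 ≤ AS_A r s j * (1 - 1 / ((s : ℝ) - r + j + 1)) :=
      mul_nonneg (by linarith) (by linarith)
    linarith

theorem AS_A_le (r s j : ℕ) (hj : 1 ≤ j) (hrs : r ≤ s + 1) : AS_A r s j ≤ j := by
  have hrs' : (r : ℝ) ≤ s + 1 := by exact_mod_cast hrs
  have hj' : (1 : ℝ) ≤ j := by exact_mod_cast hj
  unfold AS_A
  have : 0 ≤ (j : ℝ) * (j - 1) / (2 * ((s : ℝ) - r + j)) :=
    div_nonneg (mul_nonneg (by linarith) (by linarith)) (by linarith)
  linarith

theorem AS_main (r s t : ℕ) (hrs : r ≤ s + 1) (j : ℕ) (hj : 1 ≤ j) :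
    ∃ C : ℝ, 1 ≤ C ∧ ∀ (V : Type) [Fintype V] (K : SimpleGraph V),
      (∀ S : Finset V, S.card = s → (AS_N K S).card ≤ t) → ∀ S : Finset V, S.card + j = r →
      (AS_E K j S : ℝ) ≤ C * ((AS_N K S).card : ℝ) ^ AS_A r s j := by
  induction j, hj using Nat.le_induction with
  | base =>
    refine ⟨1, le_rfl, ?_⟩
    intro V _ K _ S _
    rw [AS_A_one, Real.rpow_one, one_mul]
    simp [AS_E]
  | succ j hj ih =>
    obtain ⟨C, hC, hih⟩ := ih
    set q : ℕ := s + j + 1 - r with hq
    have hqj : j ≤ q := by omega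
    have hq1 : 1 ≤ q := by omega
    have hqr : (q : ℝ) = (s : ℝ) - r + j + 1 := by
      rw [hq, Nat.cast_sub (by omega)]
      push_cast
      ring
    obtain ⟨c, hc, hpow⟩ := AS_pow q hq1
    refine ⟨C * (c * (1 + t)), ?_, ?_⟩
    · have h1 : (0 : ℝ) ≤ t := by positivity
      have h2 : 1 ≤ c * (1 + t) := by nlinarith
      nlinarith
    · intro V _ K hP S hS
      have hdc := AS_double K s t q S hP (by omega)
      have hA0 := AS_A_ge r s j hj hrs
      have hAj := AS_A_le r s j hj hrs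
      have hD : ∑ v ∈ AS_N K S, ((AS_N K (insert v S)).card : ℝ) ^ q ≤
          (c * (1 + t)) * ((AS_N K S).card : ℝ) ^ q := by
        have h1 : ∑ v ∈ AS_N K S, ((AS_N K (insert v S)).card : ℝ) ^ q ≤
            ∑ v ∈ AS_N K S, c * (1 + ((AS_N K (insert v S)).card.choose q : ℝ)) :=
          Finset.sum_le_sum (fun v _ => hpow _)
        have h2 : ∑ v ∈ AS_N K S, c * (1 + ((AS_N K (insert v S)).card.choose q : ℝ)) =
            c * ((AS_N K S).card + ∑ v ∈ AS_N K S,
              ((AS_N K (insert v S)).card.choose q : ℝ)) := by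
          rw [← Finset.mul_sum, Finset.sum_add_distrib, Finset.sum_const, nsmul_eq_mul, mul_one]
        have h3 : ∑ v ∈ AS_N K S, ((AS_N K (insert v S)).card.choose q : ℝ) ≤
            t * ((AS_N K S).card : ℝ) ^ q := by
          have h4 : ∑ v ∈ AS_N K S, ((AS_N K (insert v S)).card.choose q : ℝ) ≤
              t * ((AS_N K S).card.choose q : ℝ) := by exact_mod_cast hdc
          have h5 : ((AS_N K S).card.choose q : ℝ) ≤ ((AS_N K S).card : ℝ) ^ q := by
            have := Nat.choose_le_pow (AS_N K S).card q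
            exact_mod_cast this
          exact h4.trans (mul_le_mul_of_nonneg_left h5 (by positivity))
        have h6 : ((AS_N K S).card : ℝ) ≤ ((AS_N K S).card : ℝ) ^ q := by
          have : (AS_N K S).card ≤ (AS_N K S).card ^ q := Nat.le_self_pow (by omega) _
          exact_mod_cast this
        rw [h2] at h1
        refine h1.trans ?_
        have h7 : ((AS_N K S).card : ℝ) + ∑ v ∈ AS_N K S,
              ((AS_N K (insert v S)).card.choose q : ℝ) ≤
            (1 + t) * ((AS_N K S).card : ℝ) ^ q := by linarith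
        calc _ ≤ c * ((1 + t) * ((AS_N K S).card : ℝ) ^ q) :=
              mul_le_mul_of_nonneg_left h7 (by linarith)
          _ = _ := by ring
      have hmean := AS_mean (AS_N K S) (fun v => ((AS_N K (insert v S)).card : ℝ))
        (fun v _ => by positivity) q hq1 (AS_A r s j) (by linarith)
        (hAj.trans (by exact_mod_cast hqj)) (c * (1 + t))
        (by
          have h1 : (0 : ℝ) ≤ t := by positivity
          nlinarith) hD
      have hE : (AS_E K (j + 1) S : ℝ) = ∑ v ∈ AS_N K S, (AS_E K j (insert v S) : ℝ) := by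
        rw [AS_E]; push_cast; rfl
      rw [hE]
      calc ∑ v ∈ AS_N K S, (AS_E K j (insert v S) : ℝ)
          ≤ ∑ v ∈ AS_N K S, C * ((AS_N K (insert v S)).card : ℝ) ^ AS_A r s j := by
            refine Finset.sum_le_sum (fun v hv => ?_)
            refine hih V K hP (insert v S) ?_
            rw [card_insert_of_notMem (AS_not_mem hv)]
            omega
        _ = C * ∑ v ∈ AS_N K S, ((AS_N K (insert v S)).card : ℝ) ^ AS_A r s j := by
            rw [Finset.mul_sum]
        _ ≤ C * ((c * (1 + t)) * ((AS_N K S).card : ℝ) ^ (1 + AS_A r s j * (1 - 1 / q))) :=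
            mul_le_mul_of_nonneg_left hmean (by linarith)
        _ = _ := by
            rw [AS_A_succ r s j hj hrs, hqr]
            ring

/-- a `G`-free graph has few common neighbours of `s` vertices -/
theorem AS_free {U V : Type} [Fintype U] [Fintype V] (G : SimpleGraph U) (A : Finset U)
    (hA : ∀ u v, G.Adj u v → (u ∈ A ↔ v ∉ A)) (s : ℕ) (hs : A.card ≤ s)
    (K : SimpleGraph V) (hK : G.Free K) (S : Finset V) (hS : S.card = s) :
    (AS_N K S).card ≤ Fintype.card U := by
  by_contra hcon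
  push Not at hcon
  apply hK
  -- injections
  obtain ⟨S', hS', hS'c⟩ := Finset.exists_subset_card_eq (show A.card ≤ S.card by omega)
  let e1 : A ≃ S' := Finset.equivOfCardEq hS'c.symm
  have hBc : (univ \ A : Finset U).card ≤ (AS_N K S).card := by
    refine le_trans ?_ hcon.le
    exact Finset.card_le_univ _
  obtain ⟨N', hN', hN'c⟩ := Finset.exists_subset_card_eq hBc
  let e2 : (univ \ A : Finset U) ≃ N' := Finset.equivOfCardEq hN'c.symm
  have hnA : ∀ u, u ∉ A → u ∈ (univ \ A : Finset U) := fun u hu =>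
    mem_sdiff.2 ⟨mem_univ _, hu⟩
  let f : U → V := fun u => if hu : u ∈ A then (e1 ⟨u, hu⟩ : V) else (e2 ⟨u, hnA u hu⟩ : V)
  have f1 : ∀ u (hu : u ∈ A), f u = (e1 ⟨u, hu⟩ : V) := fun u hu => dif_pos hu
  have f2 : ∀ u (hu : u ∉ A), f u = (e2 ⟨u, hnA u hu⟩ : V) := fun u hu => dif_neg hu
  have g1 : ∀ u, u ∈ A → f u ∈ S := by
    intro u hu; rw [f1 u hu]; exact hS' (e1 ⟨u, hu⟩).2
  have g2 : ∀ u, u ∉ A → f u ∈ AS_N K S := by
    intro u hu; rw [f2 u hu]; exact hN' (e2 ⟨u, hnA u hu⟩).2
  have hinj : Function.Injective f := by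
    intro u v huv
    by_cases hu : u ∈ A <;> by_cases hv : v ∈ A
    · rw [f1 u hu, f1 v hv] at huv
      have := e1.injective (Subtype.ext huv)
      exact congrArg Subtype.val this
    · exact absurd (g1 u hu) (AS_not_mem (huv ▸ g2 v hv))
    · exact absurd (g1 v hv) (AS_not_mem (huv ▸ g2 u hu))
    · rw [f2 u hu, f2 v hv] at huv
      have := e2.injective (Subtype.ext huv)
      exact congrArg Subtype.val this
  refine ⟨⟨⟨f, ?_⟩, hinj⟩⟩
  intro u v huv
  have := hA u v huv
  by_cases hu : u ∈ A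
  · exact AS_mem_N.1 (g2 v (this.1 hu)) _ (g1 u hu)
  · have hv : v ∈ A := by
      by_contra hv
      exact hu (this.2 hv)
    exact (AS_mem_N.1 (g2 u hu) _ (g1 v hv)).symm

theorem exK_small_of_bip {U : Type} [Fintype U] (r : ℕ) (hr : 3 ≤ r) (G : SimpleGraph U)
    (A : Finset U) (hA : ∀ u v, G.Adj u v → (u ∈ A ↔ v ∉ A)) (hcard : A.card < r.choose 2) :
    Tendsto (fun n : ℕ => (exK n r G : ℝ) / (n : ℝ) ^ (r - 1)) atTop (𝓝 0) := by
  obtain ⟨s, hs⟩ : ∃ s : ℕ, s = r.choose 2 - 1 := ⟨_, rfl⟩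
  have hr1 : ((r - 1 : ℕ) : ℝ) = (r : ℝ) - 1 := by
    rw [Nat.cast_sub (by omega), Nat.cast_one]
  have hch : 2 * r.choose 2 = r * (r - 1) := by
    rw [Nat.choose_two_right, Nat.mul_div_cancel']
    exact (Nat.even_mul_pred_self r).two_dvd
  have hrs : r ≤ s + 1 := by
    have h1 : 2 * r ≤ r * (r - 1) := by
      have : 2 ≤ r - 1 := by omega
      calc 2 * r = r * 2 := by ring
        _ ≤ r * (r - 1) := Nat.mul_le_mul_left _ this
    omega
  have hs1 : 1 ≤ s := by omega
  obtain ⟨C, hC, hmain⟩ := AS_main r s (Fintype.card U) hrs r (by omega)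
  have hAr : AS_A r s r = (r : ℝ) - 1 - 1 / s := by
    have hsr : (2 : ℝ) * (s + 1) = r * (r - 1) := by
      have h1 : 2 * (s + 1) = r * (r - 1) := by omega
      rw [← hr1]
      exact_mod_cast h1
    have hs0 : (s : ℝ) ≠ 0 := by positivity
    unfold AS_A
    rw [← hsr, sub_add_cancel]
    field_simp
    ring
  have hbound : ∀ n : ℕ, (exK n r G : ℝ) ≤ C * (n : ℝ) ^ ((r : ℝ) - 1 - 1 / s) := by
    intro n
    unfold exK
    by_cases hne : {m | ∃ K : SimpleGraph (Fin n), G.Free K ∧
        (K.cliqueFinset r).card = m}.Nonempty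
    · have hbdd : BddAbove {m | ∃ K : SimpleGraph (Fin n), G.Free K ∧
          (K.cliqueFinset r).card = m} := by
        refine ⟨Fintype.card (Finset (Fin n)), ?_⟩
        rintro m ⟨K, -, rfl⟩
        exact Finset.card_le_univ _
      obtain ⟨K, hK, hKm⟩ := Nat.sSup_mem hne hbdd
      rw [← hKm]
      have h0 : (K.cliqueFinset r).card ≤ AS_E K r ∅ := by
        exact (ic_clique K r _ _ _ _).le.trans (AS_clique K r)
      have h1 : ((K.cliqueFinset r).card : ℝ) ≤ (AS_E K r ∅ : ℝ) := by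
        exact_mod_cast h0
      refine h1.trans ?_
      have h2 := hmain (Fin n) K (fun S hS => AS_free G A hA s (by omega) K hK S hS) ∅ (by simp)
      have h3 : (AS_N K ∅).card = n := by
        have : AS_N K ∅ = univ := by
          ext v; simp [AS_mem_N]
        rw [this, card_univ, Fintype.card_fin]
      rw [h3, hAr] at h2
      exact h2
    · rw [Set.not_nonempty_iff_eq_empty.1 hne]
      simp only [csSup_empty, Nat.bot_eq_zero, Nat.cast_zero]
      positivity
  have hlim : Tendsto (fun n : ℕ => C * (n : ℝ) ^ (-(1 / (s : ℝ)))) atTop (𝓝 0) := by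
    have h1 : Tendsto (fun n : ℕ => (n : ℝ) ^ (-(1 / (s : ℝ)))) atTop (𝓝 0) :=
      (tendsto_rpow_neg_atTop (by positivity)).comp tendsto_natCast_atTop_atTop
    simpa using h1.const_mul C
  refine tendsto_of_tendsto_of_tendsto_of_le_of_le' tendsto_const_nhds hlim ?_ ?_
  · exact Eventually.of_forall (fun n => by positivity)
  · filter_upwards [eventually_ge_atTop 1] with n hn
    have hn0 : (0 : ℝ) < n := by exact_mod_cast hn
    rw [div_le_iff₀ (by positivity)]
    refine (hbound n).trans (le_of_eq ?_)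
    rw [mul_assoc, ← Real.rpow_natCast, ← Real.rpow_add hn0]
    congr 2
    rw [hr1]
    ring

end

end EX
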